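import Pool.Agent.R326.ML.Comp

/-!
# MP_e7878a_nt, Q1: an algorithm for minimum-length multiples of nonmonic irreducible polynomials
-/

set_option autoImplicit false

namespace Pool.Agent.Results.MP_e7878a_nt.NonmonicAlgorithm

open Polynomial

/-- the length of an integer polynomial: the sum of the absolute values of its coefficients -/
noncomputable def length (F : ℤ[X]) : ℕ := ∑ i ∈ F.support, (F.coeff i).natAbs

/-- the integer polynomial with a given list of coefficients, the constant coefficient first -/
noncomputable def toPoly (l : List ℤ) : ℤ[X] :=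
  ∑ i ∈ Finset.range l.length, monomial i (l.getD i 0)

/-- There is a computable (even primitive recursive) function on lists of integers which, for
every nonmonic irreducible polynomial `P` of positive degree given by its list of coefficients,
returns the list of coefficients of a nonzero multiple of `P` of smallest possible length. -/
theorem result : ∃ f : List ℤ → List ℤ, Computable f ∧ Primrec f ∧
    ∀ l : List ℤ, Irreducible (toPoly l) → 1 ≤ (toPoly l).natDegree →
      (toPoly l).leadingCoeff ≠ 1 → (toPoly l).leadingCoeff ≠ -1 →
      toPoly l ∣ toPoly (f l) ∧ toPoly (f l) ≠ 0 ∧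
        ∀ G : ℤ[X], G ≠ 0 → toPoly l ∣ G → length (toPoly (f l)) ≤ length G := by
  refine ⟨Pool.Agent.R326.ML.algo, Pool.Agent.R326.ML.prim_algo.to_comp,
    Pool.Agent.R326.ML.prim_algo, ?_⟩
  intro l h1 h2 h3 h4
  have h5 : ¬ IsUnit (toPoly l).leadingCoeff := by
    rw [Int.isUnit_iff]
    rintro (h | h)
    · exact h3 h
    · exact h4 h
  exact Pool.Agent.R326.ML.algo_spec l h1 (by
    intro h0
    have : (toPoly l).natDegree = 0 := h0
    omega) h5

end Pool.Agent.Results.MP_e7878a_nt.NonmonicAlgorithm
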